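import Pool.Agent.Helper77.DS.Defs

/-!
DS-6: functions on special tables vanish (moving letters by exchanges).
-/

namespace Pool.Agent.Helper77.DS

open Finset

section

variable {R I : Type} [Fintype R] {D : ℕ}

theorem ds6_spec_sw [DecidableEq R] [DecidableEq I] (t : R → I → Fin (D + 1)) (ht : Spec D t) (P Q : R) (i : I) :
    Spec D (sw P Q i t) := by
  intro j c hc
  by_cases hj : j = i
  · refine Eq.trans ?_ (ht j c hc)
    refine Finset.card_bij (fun r _ => Equiv.swap P Q r) ?_ ?_ ?_
    · intro r hr
      simp only [Finset.mem_filter, Finset.mem_univ, true_and, sw, hj, if_true] at hr ⊢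
      exact hr
    · intro a _ b _ hab
      exact (Equiv.swap P Q).injective hab
    · intro b hb
      refine ⟨Equiv.swap P Q b, ?_, Equiv.swap_apply_self P Q b⟩
      simp only [Finset.mem_filter, Finset.mem_univ, true_and, sw, hj, if_true,
        Equiv.swap_apply_self] at hb ⊢
      exact hb
  · refine Eq.trans ?_ (ht j c hc)
    congr 1
    ext r
    simp [sw, hj]

theorem ds6_col_card (t : R → I → Fin (D + 1)) (ht : Spec D t) (i : I) :
    (Finset.univ.filter fun r => t r i ≠ 0).card ≤ D := by
  have h1 : (Finset.univ.filter fun r => t r i ≠ 0).card ≤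
      (Finset.univ.filter fun c : Fin (D + 1) => c ≠ 0).card := by
    refine Finset.card_le_card_of_injOn (fun r => t r i) ?_ ?_
    · intro r hr
      simp only [Finset.coe_filter, Finset.mem_univ, true_and, Set.mem_ofPred_eq] at hr ⊢
      exact hr
    · intro a ha b hb hab
      simp only [Finset.coe_filter, Finset.mem_univ, true_and, Set.mem_ofPred_eq] at ha hb hab
      have h2 := ht i (t a i) ha
      rw [Finset.card_eq_one] at h2
      obtain ⟨x, hx⟩ := h2
      have h3 : a ∈ (Finset.univ.filter fun r => t r i = t a i) := by simp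
      have h4 : b ∈ (Finset.univ.filter fun r => t r i = t a i) := by simp [hab]
      rw [hx, Finset.mem_singleton] at h3 h4
      rw [h3, h4]
  have h5 : (Finset.univ.filter fun c : Fin (D + 1) => c ≠ 0).card = D := by
    rw [Finset.filter_ne' Finset.univ (0 : Fin (D + 1)),
      Finset.card_erase_of_mem (Finset.mem_univ _)]
    simp
  omega

/-- moving the letters into the rows of `T0` -/
theorem ds6_move [DecidableEq R] [DecidableEq I] [Fintype I] (U T0 : Finset R) (hT0 : T0.card = D) (hTU : Disjoint T0 U)
    (h : (R → I → Fin (D + 1)) → ℂ)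
    (hsw : ∀ P Q : R, P ∉ U → Q ∉ U → P ≠ Q → ∀ i : I, ∀ t, Spec D t →
      h t = h (sw P Q i t))
    (h0 : ∀ t, Spec D t → (Finset.univ.filter fun r => r ∉ U ∧ ∃ i, t r i ≠ 0).card ≤ D →
      h t = 0) (n : ℕ) : ∀ t, Spec D t →
      (Finset.univ.filter fun x : R × I => x.1 ∉ U ∧ x.1 ∉ T0 ∧ t x.1 x.2 ≠ 0).card = n →
      h t = 0 := by
  induction n with
  | zero =>
    intro t ht hn
    apply h0 t ht
    rw [Finset.card_eq_zero, Finset.filter_eq_empty_iff] at hn
    refine le_trans (Finset.card_le_card ?_) hT0.le
    intro r hr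
    simp only [Finset.mem_filter, Finset.mem_univ, true_and] at hr
    obtain ⟨hrU, i, hi⟩ := hr
    by_contra hrT
    exact hn (Finset.mem_univ (r, i)) ⟨hrU, hrT, hi⟩
  | succ n ih =>
    intro t ht hn
    have hne : (Finset.univ.filter fun x : R × I =>
        x.1 ∉ U ∧ x.1 ∉ T0 ∧ t x.1 x.2 ≠ 0).Nonempty := by
      rw [← Finset.card_pos, hn]
      exact Nat.succ_pos n
    obtain ⟨⟨r, i⟩, hx⟩ := hne
    have hx' := hx
    simp only [Finset.mem_filter, Finset.mem_univ, true_and] at hx'
    obtain ⟨hrU, hrT, hri⟩ := hx'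
    have hP : ∃ P ∈ T0, t P i = 0 := by
      by_contra hcon
      push Not at hcon
      have h1 : insert r T0 ⊆ (Finset.univ.filter fun r => t r i ≠ 0) := by
        intro x hxm
        rw [Finset.mem_insert] at hxm
        simp only [Finset.mem_filter, Finset.mem_univ, true_and]
        rcases hxm with hxm | hxm
        · rw [hxm]; exact hri
        · exact hcon x hxm
      have h2 := Finset.card_le_card h1
      rw [Finset.card_insert_of_notMem hrT, hT0] at h2
      have h3 := ds6_col_card t ht i
      omega
    obtain ⟨P, hPT, hPi⟩ := hP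
    have hPU : P ∉ U := Finset.disjoint_left.mp hTU hPT
    have hPr : r ≠ P := fun e => hrT (e ▸ hPT)
    rw [hsw r P hrU hPU hPr i t ht]
    apply ih _ (ds6_spec_sw t ht r P i)
    have h4 : (Finset.univ.filter fun x : R × I =>
        x.1 ∉ U ∧ x.1 ∉ T0 ∧ sw r P i t x.1 x.2 ≠ 0) =
        (Finset.univ.filter fun x : R × I =>
          x.1 ∉ U ∧ x.1 ∉ T0 ∧ t x.1 x.2 ≠ 0).erase (r, i) := by
      ext ⟨s, j⟩
      simp only [Finset.mem_filter, Finset.mem_univ, true_and, Finset.mem_erase, ne_eq,
        Prod.mk.injEq, not_and]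
      by_cases hj : j = i
      · by_cases hs : s = r
        · subst hs
          subst hj
          simp [sw, hPi]
        · by_cases hsP : s = P
          · subst hsP
            simp [hPT]
          · subst hj
            simp [sw, hs, Equiv.swap_apply_of_ne_of_ne hs hsP]
      · simp [sw, hj]
    rw [h4, Finset.card_erase_of_mem hx, hn]
    rfl

theorem ds6_gen [DecidableEq R] [DecidableEq I] [Fintype I] (k : ℕ) : ∀ (U : Finset R) (h : (R → I → Fin (D + 1)) → ℂ),
    Van k U h → D + 2 * k + U.card ≤ Fintype.card R →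
    (∀ t, Spec D t → (Finset.univ.filter fun r => r ∉ U ∧ ∃ i, t r i ≠ 0).card ≤ D + 2 * k →
      h t = 0) → ∀ t, Spec D t → h t = 0 := by
  induction k with
  | zero =>
    intro U h hV _ _ t _
    exact hV t
  | succ k ih =>
    intro U h hV hR h0 t ht
    have hsw : ∀ P Q : R, P ∉ U → Q ∉ U → P ≠ Q → ∀ i : I, ∀ t, Spec D t →
        h t = h (sw P Q i t) := by
      intro P Q hP hQ hPQ i t ht
      have hQU : Q ∉ U := hQ
      have hPQU : P ∉ insert Q U := by
        rw [Finset.mem_insert, not_or]
        exact ⟨hPQ, hP⟩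
      have hcard : (insert P (insert Q U)).card = U.card + 2 := by
        rw [Finset.card_insert_of_notMem hPQU, Finset.card_insert_of_notMem hQU]
      have h1 := ih (insert P (insert Q U)) (fun t => h t - h (sw P Q i t)) (hV P Q hP hQ hPQ i)
        (by rw [hcard]; omega) ?_ t ht
      · exact sub_eq_zero.mp h1
      · intro s hs hc
        have h2 : ∀ s' : R → I → Fin (D + 1), (∀ r, r ≠ P → r ≠ Q → s' r = s r) →
            (Finset.univ.filter fun r => r ∉ U ∧ ∃ i, s' r i ≠ 0).card ≤
              D + 2 * (k + 1) := by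
          intro s' hs'
          have h3 : (Finset.univ.filter fun r => r ∉ U ∧ ∃ i, s' r i ≠ 0) ⊆
              insert P (insert Q (Finset.univ.filter fun r =>
                r ∉ insert P (insert Q U) ∧ ∃ i, s r i ≠ 0)) := by
            intro r hr
            simp only [Finset.mem_filter, Finset.mem_univ, true_and, Finset.mem_insert,
              not_or] at hr ⊢
            by_cases hrP : r = P
            · exact Or.inl hrP
            · by_cases hrQ : r = Q
              · exact Or.inr (Or.inl hrQ)
              · rw [hs' r hrP hrQ] at hr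
                exact Or.inr (Or.inr ⟨⟨hrP, hrQ, hr.1⟩, hr.2⟩)
          have h4 := Finset.card_le_card h3
          have h5 := Finset.card_insert_le P (insert Q (Finset.univ.filter fun r =>
                r ∉ insert P (insert Q U) ∧ ∃ i, s r i ≠ 0))
          have h6 := Finset.card_insert_le Q (Finset.univ.filter fun r =>
                r ∉ insert P (insert Q U) ∧ ∃ i, s r i ≠ 0)
          omega
        have h7 := h0 s hs (h2 s fun r _ _ => rfl)
        have h8 := h0 (sw P Q i s) (ds6_spec_sw s hs P Q i) (h2 _ (by
          intro r hrP hrQ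
          funext j
          by_cases hj : j = i
          · simp [sw, Equiv.swap_apply_of_ne_of_ne hrP hrQ]
          · simp [sw, hj]))
        show h s - h (sw P Q i s) = 0
        rw [h7, h8, sub_zero]
    obtain ⟨T0, hT0, hc⟩ : ∃ T0 ⊆ Uᶜ, T0.card = D := by
      apply Finset.exists_subset_card_eq
      rw [Finset.card_compl]
      omega
    refine ds6_move U T0 hc ?_ h hsw (fun t ht hle => h0 t ht (by omega)) _ t ht rfl
    rw [Finset.disjoint_left]
    intro r hr
    have := hT0 hr
    rwa [Finset.mem_compl] at this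

end

/-- DS-6 -/
theorem spec_vanish {R I : Type} [Fintype R] [DecidableEq R] [Fintype I] [DecidableEq I]
    (D k : ℕ) (hR : D + 2 * k ≤ Fintype.card R) (g : (R → I → Fin (D + 1)) → ℂ)
    (hg : Van k ∅ g)
    (h0 : ∀ t, Spec D t → (Finset.univ.filter fun r => ∃ i, t r i ≠ 0).card ≤ D + 2 * k →
      g t = 0) (t : R → I → Fin (D + 1)) (ht : Spec D t) : g t = 0 := by
  refine ds6_gen k ∅ g hg (by simpa using hR) ?_ t ht
  intro t ht hc
  apply h0 t ht
  simpa using hc

end Pool.Agent.Helper77.DS
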